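import Pool.Agent.ARH.All

/-!
# Finite mapping class group orbits for representations which become small on finite covers

Let `S` be an oriented surface of genus `g` with `n + 1` punctures `x_0, ..., x_n`, `π` its
fundamental group, and let `w` be the winding number function modulo `k` of a `k`-spin structure on
the closed surface (no condition if `k = 1`).  Let `ρ` be a representation of `π`, of ANY rank, and
let `σ j` be irreducible representations of subgroups `H j` of finite index, Galois or not, of ranks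
`r j` with `7000 (r j + log₂ [π : H j] + 2) ≤ g`: the range is linear for the ranks and exponential
for the indices.  More generally let `H j ≤ N j` where `N j` is normal, of any finite index, and
contains the fundamental group of a subsurface of genus `h j` (this holds if
`h j + 400 (log₂ [π : N j] + 2) ≤ g`), and let `7000 (r j + log₂ [N j : H j] + 2) ≤ h j`; if
`H j = N j` then `36 (r j) ≤ h j` is enough, or `2 (r j) ^ 2 < h j` without irreducibility.

Let `C` be a subgroup of finite index, of any index, of all `H j`.  Suppose that there is a `d` such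
that for all `y ∈ C` every eigenvalue of `ρ y` is a root of degree `≤ d` of a product of at most `d`
eigenvalues of the `σ j y` and inverses of such eigenvalues.  Examples: `ρ` is induced from an
irreducible representation `σ` of a subgroup `H` (the `σ j` are the conjugates of `σ`, on the
conjugates of `H`); the `σ j` are the constituents of the restriction of `ρ` to a subgroup of finite
index; the restriction of `ρ` to `C` is built from the `σ j` by tensor products, duals, extensions
and Schur functors; it is a spin representation and the `σ j` are the constituents of the orthogonal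
representation; generally, the `σ j` are the constituents of a rational representation with finite
kernel of a group which contains the Zariski closure of `ρ C`.  If the traces of the `σ j y` are
finite in number for the non-separating simple closed curves `y ∈ H j` with winding number `0`, or
if the eigenvalues of `ρ y` are roots of unity for these `y`, and also the eigenvalues of the
`σ j y` are words in those of `ρ y` for all `y ∈ C` in the same sense, then the character of `ρ` has
a finite orbit under the mapping class group.  There is no condition at the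
punctures.
-/

set_option autoImplicit false

namespace Pool.Agent.Results.MP_0707f5_ag.FiniteCovers

open Matrix Helper12.Sc Helper12.Sc.SurfaceGroup SpQ

/-- the fundamental group of a closed oriented surface of genus `g` minus `n + 1` points
`x_0, ..., x_n`: the free group on `a_i`, `b_i` (`i < g`) and `x_1, ..., x_n` -/
abbrev π (g n : ℕ) : Type := FreeGroup ((Fin g × Bool) ⊕ Fin n)

/-- the generators `a_i` -/
def a {g n : ℕ} (i : Fin g) : π g n := FreeGroup.of (Sum.inl (i, false))

/-- the generators `b_i` -/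
def b {g n : ℕ} (i : Fin g) : π g n := FreeGroup.of (Sum.inl (i, true))

/-- the loops around the punctures `x_1, ..., x_n` -/
def x {g n : ℕ} (j : Fin n) : π g n := FreeGroup.of (Sum.inr j)

/-- the loop around the puncture `x_0`: `[a_1, b_1] ... [a_g, b_g] x_1 ... x_n x_0 = 1` -/
def x₀ (g n : ℕ) : π g n :=
  ((List.ofFn fun i : Fin g => a i * b i * (a i)⁻¹ * (b i)⁻¹).prod *
    (List.ofFn fun j : Fin n => x j).prod)⁻¹

/-- the mapping classes which fix the puncture `x_0` and permute the others (Dehn, Nielsen, Baer):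
the automorphisms of the fundamental group which preserve the conjugacy class of `x_0` and permute
those of `x_1, ..., x_n` -/
def MappingClass (g n : ℕ) : Set (MulAut (π g n)) :=
  {φ | IsConj (φ (x₀ g n)) (x₀ g n) ∧ ∀ j, ∃ j', IsConj (φ (x j)) (x j')}

/-- the non-separating simple closed curves, with any orientation and any base path -/
def IsNonseparatingSimple {g n : ℕ} (y : π g n) : Prop := ∃ φ ∈ MappingClass g n, ∃ i, y = φ (a i)

/-- the map to the fundamental group of the closed surface -/
def fill (g n : ℕ) : π g n →* SurfaceGroup g :=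
  FreeGroup.lift fun s => match s with
    | Sum.inl (i, false) => SurfaceGroup.a i
    | Sum.inl (i, true) => SurfaceGroup.b i
    | Sum.inr _ => 1

/-- the trace -/
def tr {r : ℕ} (A : GL (Fin r) ℂ) : ℂ := (A : Matrix (Fin r) (Fin r) ℂ).trace

/-- the set of the eigenvalues -/
def eig {r : ℕ} (A : GL (Fin r) ℂ) : Set ℂ :=
  {z | (A : Matrix (Fin r) (Fin r) ℂ).charpoly.IsRoot z}

/-- all eigenvalues are roots of unity -/
def Quasi {r : ℕ} (A : GL (Fin r) ℂ) : Prop := ∀ z ∈ eig A, ∃ m > 0, z ^ m = 1

/-- the roots of degree `≤ d` of the products of at most `d` elements of `Z` and inverses of elements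
of `Z` -/
def Words (d : ℕ) (Z : Set ℂ) : Set ℂ :=
  {z | ∃ e > 0, e ≤ d ∧ ∃ l : List ℂ, l.length ≤ d ∧ (∀ u ∈ l, u ∈ Z ∨ u⁻¹ ∈ Z) ∧ z ^ e = l.prod}

/-- the elements of the sets `Y s` are words of bounded length in the elements of the `Z s` -/
def AreWords {T : Type} (Y Z : T → Set ℂ) : Prop := ∃ d, ∀ s, Y s ⊆ Words d (Z s)

/-- a subspace which is stable under the representation -/
def Stable {r : ℕ} {G : Type} [Group G] (ρ : G →* GL (Fin r) ℂ)
    (W : Submodule ℂ (Fin r → ℂ)) : Prop :=
  ∀ y, ∀ v ∈ W, (ρ y : Matrix (Fin r) (Fin r) ℂ) *ᵥ v ∈ W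

/-- irreducibility -/
def Irreducible {r : ℕ} {G : Type} [Group G] (ρ : G →* GL (Fin r) ℂ) : Prop :=
  ∀ W, Stable ρ W → W = ⊥ ∨ W = ⊤

/-- the subgroup `N` contains the fundamental group of a subsurface of genus `h` (with one boundary
component): `h` handles can be moved into `N` by a mapping class -/
def ContainsSubsurface {g n : ℕ} (N : Subgroup (π g n)) (h : ℕ) : Prop :=
  h ≤ g ∧ ∃ θ ∈ MappingClass g n, ∀ i : Fin g, (i : ℕ) < h → θ (a i) ∈ N ∧ θ (b i) ∈ N

/-- a representation `σ` of `H` of rank `r` is small: `H ≤ N` where `N` is normal and contains the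
fundamental group of a subsurface of genus `h` (this holds for `N = π` and `h = g`, and if
`h + 400 (log₂ [π : N] + 2) ≤ g`), and `σ` is irreducible and `7000 (r + log₂ [N : H] + 2) ≤ h`, or
`H = N`, `σ` is irreducible and `36 r ≤ h`, or `H = N` and `2 r ^ 2 < h` -/
def Small {g n : ℕ} (H : Subgroup (π g n)) {r : ℕ} (σ : H →* GL (Fin r) ℂ) : Prop :=
  ∃ (N : Subgroup (π g n)) (h : ℕ), N.Normal ∧ H ≤ N ∧
    (ContainsSubsurface N h ∨ h + 400 * (Nat.log 2 N.index + 2) ≤ g) ∧
    (Irreducible σ ∧ 7000 * (r + Nat.log 2 (H.relIndex N) + 2) ≤ h ∨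
      H = N ∧ (Irreducible σ ∧ 36 * r ≤ h ∨ 2 * r ^ 2 < h))

/-- the non-separating simple closed curves in `H` with winding number `0` -/
def Curves {g n k : ℕ} (w : SurfaceGroup g → ZMod k) (H : Subgroup (π g n)) : Set (π g n) :=
  {y | y ∈ H ∧ IsNonseparatingSimple y ∧ w (fill g n y) = 0}

/-- the orbit of the character of `ρ` under the mapping class group -/
def Orbit {g n R : ℕ} (ρ : π g n →* GL (Fin R) ℂ) : Set (π g n → ℂ) :=
  {χ | ∃ φ ∈ MappingClass g n, χ = fun y => tr (ρ (φ y))}

theorem x₀_eq (g n : ℕ) : x₀ g n = LGP.x0 g n := by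
  unfold x₀ LGP.x0 Helper12.Sc.comm LGP.stdL LGP.stdM
  rw [List.map_ofFn]
  rfl

theorem mc_eq (g n : ℕ) : MappingClass g n = LGP.MC g n := by
  unfold MappingClass LGP.MC
  rw [x₀_eq]
  rfl

theorem ns_iff {g n : ℕ} (y : π g n) : IsNonseparatingSimple y ↔ LGP.NS y := by
  unfold IsNonseparatingSimple LGP.NS
  rw [mc_eq]
  rfl

theorem irr_iff {r : ℕ} {G : Type} [Group G] (ρ : G →* GL (Fin r) ℂ) :
    Irreducible ρ ↔ HZ.Irr ρ.range := by
  have h : ∀ W, Stable ρ W ↔ HZ.Stab ρ.range W := by
    intro W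
    constructor
    · rintro h _ ⟨y, rfl⟩ v hv
      exact h y v hv
    · intro h y v hv
      exact h _ ⟨y, rfl⟩ v hv
  unfold Irreducible HZ.Irr
  exact forall_congr' fun W => by rw [h]

theorem log_index {g n : ℕ} (H N : Subgroup (π g n)) :
    H.relIndex N ≤ 2 ^ (Nat.log 2 (H.relIndex N) + 1) :=
  (Nat.lt_pow_succ_log_self (by norm_num) _).le

theorem contains {g n h : ℕ} (N : Subgroup (π g n)) [N.FiniteIndex]
    (hN : ContainsSubsurface N h ∨ h + 400 * (Nat.log 2 N.index + 2) ≤ g) :
    h ≤ g ∧ ∃ θ ∈ LGP.MC g n, ∀ i : Fin g, (i : ℕ) < h →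
      θ (LGP.ga i) ∈ N ∧ θ (LGP.gb i) ∈ N := by
  rcases hN with ⟨hh, hN⟩ | hh
  · rw [mc_eq] at hN
    exact ⟨hh, hN⟩
  · have h1 := LGT.hnd N (ℓ := Nat.log 2 N.index + 1)
      (Nat.lt_pow_succ_log_self (by norm_num) _).le
    refine ⟨le_trans (Nat.le_add_right _ _) hh, ARH.kil N h1 (le_trans ?_ hh)⟩
    refine Nat.add_le_add_left ?_ _
    have e : 340 * (Nat.log 2 N.index + 1 + 1) = 340 * (Nat.log 2 N.index + 2) := by ring
    rw [e]
    exact Nat.mul_le_mul_right _ (by norm_num)

theorem cnd_of_small {g n : ℕ} (H : Subgroup (π g n)) [H.FiniteIndex] (r : ℕ)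
    (σ : H →* GL (Fin r) ℂ) (hs : Small H σ) : ARH.CndT H r σ := by
  obtain ⟨N, h, hN, hHN, hh, hs⟩ := hs
  have : N.FiniteIndex := Subgroup.finiteIndex_of_le hHN
  obtain ⟨h1, h2⟩ := contains N hh
  refine ⟨N, h, hN, hHN, h1, h2, ?_⟩
  rcases hs with ⟨hi, hs⟩ | ⟨e, ⟨hi, hs⟩ | hs⟩
  · refine Or.inl ⟨(irr_iff σ).1 hi, _, log_index H N, ?_⟩
    have e : 7 * ARH.Mm r (Nat.log 2 (H.relIndex N) + 1) =
        7000 * (r + Nat.log 2 (H.relIndex N) + 2) := by
      unfold ARH.Mm
      ring
    rw [e]
    exact hs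
  · exact Or.inr ⟨e, Or.inr ⟨(irr_iff σ).1 hi, hs⟩⟩
  · exact Or.inr ⟨e, Or.inl (Or.inl hs)⟩

theorem words_eq (d : ℕ) (Z : Set ℂ) : Words d Z = LGC.Wd d Z := by
  ext z
  constructor
  · rintro ⟨e, he, hed, l, h1, h2, h3⟩
    exact ⟨e, he, hed, l, h1, h2, h3⟩
  · rintro ⟨e, he, hed, l, h1, h2, h3⟩
    exact ⟨e, he, hed, l, h1, h2, h3⟩

theorem result (g n k R m : ℕ) (w : SurfaceGroup g → ZMod k) (hk : 0 < k)
    (hw : IsSpinStructure k w) (C : Subgroup (π g n)) [C.FiniteIndex]
    (H : Fin m → Subgroup (π g n)) (hC : ∀ j, C ≤ H j) (ρ : π g n →* GL (Fin R) ℂ)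
    (r : Fin m → ℕ) (σ : ∀ j, H j →* GL (Fin (r j)) ℂ) (hσ : ∀ j, Small (H j) (σ j))
    (hρ : AreWords (fun y : C => eig (ρ y)) fun y => {z | ∃ j, z ∈ eig (σ j ⟨y, hC j y.2⟩)})
    (hq : (∀ j, {z : ℂ | ∃ y : H j, (y : π g n) ∈ Curves w (H j) ∧ z = tr (σ j y)}.Finite) ∨
      (∀ j, ∀ y ∈ Curves w (H j), Quasi (ρ y)) ∧
        AreWords (fun y : C => {z | ∃ j, z ∈ eig (σ j ⟨y, hC j y.2⟩)}) fun y => eig (ρ y)) :
    (Orbit ρ).Finite := by
  have hfi : ∀ j, (H j).FiniteIndex := fun j => Subgroup.finiteIndex_of_le (hC j)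
  unfold Orbit
  rw [mc_eq]
  refine ARH.thmT ARH.all_Dkn g n k R m w hk hw C H hC ρ r σ
    (fun j => cnd_of_small (H j) (r j) (σ j) (hσ j)) ?_ ?_
  · obtain ⟨d, hd⟩ := hρ
    refine ⟨d, fun y z hz => ?_⟩
    rw [← words_eq]
    exact hd y hz
  · rcases hq with hq | ⟨hq, d, hd⟩
    · refine Or.inr fun j => (hq j).subset ?_
      rintro z ⟨y, h1, h2, h3⟩
      exact ⟨y, ⟨y.2, (ns_iff _).2 h1, h2⟩, h3⟩
    · refine Or.inl ⟨fun j y h1 h2 => hq j y ⟨y.2, (ns_iff _).2 h1, h2⟩, d, fun y j z hz => ?_⟩
      rw [← words_eq]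
      exact hd y ⟨j, hz⟩

end Pool.Agent.Results.MP_0707f5_ag.FiniteCovers
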