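import Pool.Agent.TRS.Brg
import Pool.Agent.TRS.TO2

/-!
# Systems of pseudo-reflections on punctured annuli and tori

Representations of any rank of the fundamental group of an annulus or a torus with `n + 1`
punctures which map the loops around the punctures to scalar multiples of pseudo-reflections.  There
is no condition on the loops around the two ends of the annulus.  If the restrictions to the pairs of
pants one hole of which is a puncture have finite image, then the character has a finite orbit under
the mapping class group and the field automorphisms of `ℂ`.  For the annulus, and for the torus with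
one puncture if the scalar has order at least the rank, the image is finite if the representation is
completely reducible.
-/

set_option autoImplicit false

namespace Pool.Agent.Results.MP_0707f5_ag.PseudoReflections

open Matrix Pool.Agent.HZ

/-- the surface -/
inductive Surface
  | annulus
  | torus

/-- the fundamental group of an annulus or a torus with `n + 1` punctures, a free group of rank
`n + 2`.  Annulus: the generators are `a = of 0`, the loop around the first end, and
`x_i = of i`, `i = 1, ..., n + 1`, the loops around the punctures.  Torus: the generators are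
`a = of 0`, `b = of 1` and `x_i = of (i + 1)`, `i = 1, ..., n`. -/
abbrev π (n : ℕ) : Type := FreeGroup (Fin (n + 2))

/-- the loop around the first end of the annulus, a nonseparating simple closed curve on the torus -/
def a (n : ℕ) : π n := FreeGroup.of 0

/-- the simple loops `x_1, ..., x_(n+1)` around the punctures; on the torus
`x_1 * ... * x_(n+1) = a⁻¹ * b⁻¹ * a * b` -/
def punctures (S : Surface) (n : ℕ) : List (π n) :=
  match S with
  | Surface.annulus => (List.finRange (n + 1)).map fun i => FreeGroup.of i.succ
  | Surface.torus => ((List.finRange n).map fun i => FreeGroup.of i.succ.succ) ++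
      [((List.finRange n).map fun i => FreeGroup.of i.succ.succ).prod⁻¹ *
        ((FreeGroup.of 0)⁻¹ * (FreeGroup.of 1)⁻¹ * (FreeGroup.of 0 * FreeGroup.of 1))]

/-- the loops around the ends: `a` and `a * x_1 * ... * x_(n+1)` for the annulus, none for the
torus -/
def ends (S : Surface) (n : ℕ) : List (π n) :=
  match S with
  | Surface.annulus => [a n, a n * (punctures Surface.annulus n).prod]
  | Surface.torus => []

/-- the mapping classes (Dehn, Nielsen, Baer): the automorphisms of the fundamental group which
permute the conjugacy classes of the loops around the punctures and preserve those of the loops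
around the ends -/
def MappingClass (S : Surface) (n : ℕ) : Set (MulAut (π n)) :=
  {φ | (∀ y ∈ punctures S n, ∃ y' ∈ punctures S n, IsConj (φ y) y') ∧
    ∀ e ∈ ends S n, IsConj (φ e) e}

/-- a scalar multiple of a pseudo-reflection, or a scalar -/
def PR {r : ℕ} (g : GL (Fin r) ℂ) : Prop :=
  ∃ c : ℂ, ((g : Matrix (Fin r) (Fin r) ℂ) - c • (1 : Matrix (Fin r) (Fin r) ℂ)).rank ≤ 1

theorem result : ∀ (S : Surface) (n r : ℕ) (ρ : π n →* GL (Fin r) ℂ),
    -- the punctures
    (∀ y ∈ punctures S n, PR (ρ y)) →
    -- finite image on the pairs of pants one hole of which is a puncture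
    (∀ φ ∈ MappingClass S n, ∀ (N T : List (π n)) (y : π n), punctures S n = N ++ y :: T →
      (ρ '' (Subgroup.closure {φ (a n * N.prod), φ y} : Subgroup (π n))).Finite ∧
      (ρ '' (Subgroup.closure {φ N.prod, φ y} : Subgroup (π n))).Finite) →
    -- the orbit of the character is finite
    {χ : π n → ℂ | ∃ φ ∈ MappingClass S n, ∃ σ : RingAut ℂ,
      χ = fun w => σ (ρ (φ w) : Matrix (Fin r) (Fin r) ℂ).trace}.Finite ∧
    -- finite image
    (S = Surface.annulus ∨ (n = 0 ∧ ∃ c : ℂ,
        (∀ y ∈ punctures S n,
          ((ρ y : Matrix (Fin r) (Fin r) ℂ) - c • (1 : Matrix (Fin r) (Fin r) ℂ)).rank ≤ 1) ∧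
        ∀ k : ℕ, 0 < k → k < r → c ^ k ≠ 1) →
      (∀ w, Quasi (ρ w)) ∧ (CRed ρ.range → Finite ρ.range)) := by
  intro S n r ρ h1 h2
  rcases S with _ | _
  · have h3 := Pool.Agent.TRS.thm_ann n r ρ h1 h2
    exact ⟨Pool.Agent.TRS.orb_of_quasi n r ρ h3 _, fun _ =>
      ⟨h3, Pool.Agent.PRS.fin_of_quasi (n + 2) r ρ h3⟩⟩
  · have h4 : ∀ φ : MulAut (π n), φ ∈ MappingClass Surface.torus n ↔ φ ∈ Pool.Agent.TRS.MC n :=
      fun φ => ⟨fun h => h.1, fun h => ⟨h, fun e he => absurd he List.not_mem_nil⟩⟩
    refine ⟨?_, ?_⟩
    swap
    · rintro (h | ⟨rfl, c, hc, hk⟩)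
      · cases h
      have h3 : ∀ w, Quasi (ρ w) := Pool.Agent.TRS.thm_To2 r ρ
        { pr := h1
          pa := fun φ hφ y T hT => by
            have h5 := (h2 φ ((h4 φ).2 hφ) [] T y hT).1
            rwa [List.prod_nil, mul_one] at h5
          pb := fun φ hφ N y T hT => (h2 φ ((h4 φ).2 hφ) N T y hT).2 } c hc hk
      exact ⟨h3, Pool.Agent.PRS.fin_of_quasi 2 r ρ h3⟩
    have h3 := Pool.Agent.TRS.thm_tor n r ρ h1 fun φ hφ N T y hT =>
      h2 φ ((h4 φ).2 hφ) N T y hT
    refine h3.subset ?_
    rintro _ ⟨φ, hφ, σ, rfl⟩
    exact ⟨φ, (h4 φ).1 hφ, σ, rfl⟩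

end Pool.Agent.Results.MP_0707f5_ag.PseudoReflections
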