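import Pool.Agent.SGF.Fin

/-!
# Local systems on surfaces of arbitrary genus with fixed and moving punctures: the structure theorem

Let `S` be the compact oriented surface of genus `g` with one boundary curve, with `m` fixed and `n`
moving punctures, and `F` its fundamental group, a free group.  (A closed surface is the case of the
representations which are trivial on the boundary curve.)  Moving loops are the simple closed curves
which bound a disc with moving punctures only.  Let `ρ` be a representation of rank `r` of `F` such that
the eigenvalues of `ρ γ` are roots of unity for all moving loops `γ`; nothing is assumed on the fixed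
punctures and on the handles.  Then there is a set `T` of moving punctures, the number of which is
bounded in terms of `r` only, such that the following hold for the normal subgroup `K` of `F`
generated by the loops around the moving punctures outside `T`.

(b) The elements of `ρ K` have only roots of unity as eigenvalues, and `ρ K` is finite if `ρ` is
completely reducible.

(c) The orbit of the character of `ρ` under the mapping class group, and also under the motions of the
moving punctures, is finite if and only if that of its restriction to the subsurface without the
moving punctures outside `T` is finite.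

(d) If `ρ` is irreducible, then it is induced from `β ⊗ α`, where `α` and `β` are representations of
a subgroup `H` of finite index, the image of `α` is finite, and `β` is trivial on `K ≤ H`.  The
eigenvalues of `β h` are roots of unity if `h` is conjugate to a power of a moving loop.  The rank of
`β` divides the dimensions of all eigenspaces of the `ρ x_i`, `i ∉ T`, and is at most `r/2` if more
than `N(r)` of the `ρ x_i` are not scalar.

Moreover (a) the monodromy group of an irreducible `ρ` is virtually abelian if more than `N(r)` of
the `ρ x_i` have an eigenspace of dimension prime to `r`, or if `r` is prime and more than `N(r)` of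
them are not scalar; and (e) for all `g` and `m`, if the orbits are finite for all `ρ` of rank `r` as above
with at most `N(r)` moving punctures, then they are finite for any number of moving punctures.
-/

namespace Pool.Agent.Results.MP_0707f5_ag.StructureTheorem

open Pool.Agent.SGF Pool.Agent.SGF.Surface

theorem result (r : ℕ) (hr : 0 < r) : ∃ N : ℕ,
    (∀ (g m n : ℕ) (ρ : FreeGroup (Gen g m n) →* GL (Fin r) ℂ), QuasiMoving ρ →
      ∃ T : Finset (Fin n), T.card ≤ N ∧ QuasiOn ρ (Outside g m T) ∧ FiniteOn ρ (Outside g m T) ∧
        (∀ Q, FiniteOrbit Q ρ ↔ FiniteOrbit Q (restrict ρ T)) ∧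
        (Irreducible ρ → ∃ e : ℕ, InducedFrom ρ (Outside g m T) {γ | MovingLoop γ} e ∧
          (∀ i ∉ T, ∀ z : ℂ, e ∣ eigDim (loc ρ i) z) ∧
          (N < Nat.card {i | NonScalar (loc ρ i)} → 2 * e ≤ r))) ∧
    (∀ (g m n : ℕ) (ρ : FreeGroup (Gen g m n) →* GL (Fin r) ℂ), QuasiMoving ρ → Irreducible ρ →
      (N < Nat.card {i | ∃ z : ℂ, (eigDim (loc ρ i) z).Coprime r} ∨
        (r.Prime ∧ N < Nat.card {i | NonScalar (loc ρ i)})) → VirtuallyAbelian ρ) ∧
    ∀ (g m : ℕ) (Q : Set (FreeGroup (Gen g m 0) ≃* FreeGroup (Gen g m 0))),
      (∀ n ≤ N, ∀ ρ : FreeGroup (Gen g m n) →* GL (Fin r) ℂ, QuasiMoving ρ → FiniteOrbit Q ρ) →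
      ∀ (n : ℕ) (ρ : FreeGroup (Gen g m n) →* GL (Fin r) ℂ), QuasiMoving ρ → FiniteOrbit Q ρ :=
  structure_theorem r hr

end Pool.Agent.Results.MP_0707f5_ag.StructureTheorem
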