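import Pool.Agent.RTP.All

/-!
# Vanishing cycles suffice in rank at most three

Local systems of rank at most three on a curve, whose monodromies along the vanishing cycles of a
family of curves have only roots of unity as eigenvalues: the character has a finite orbit under the
mapping classes of the family. The families: curves with a spin structure, like the generic curve or
smooth plane curves; hyperelliptic curves; curves with a chain of at least four vanishing cycles whose
classes generate the fundamental group; curves of genus at least one with any number of punctures.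
-/

set_option autoImplicit false

namespace Pool.Agent.Results.MP_0707f5_ag.VanishingChains

open Matrix Pool.Agent.H2R Pool.Agent.Helper33.RT
open Helper12.Sc Helper12.Sc.SurfaceGroup SpQ

/-- Non-separating simple closed curves with winding number zero. -/
def Zero {g k : ℕ} (w : SurfaceGroup g → ZMod k) : Set (SurfaceGroup g) :=
  {x | x.IsNonseparatingSimple ∧ w x = 0}

/-- The mapping class group, as a set of homomorphisms. -/
def MappingClasses (g : ℕ) : Set (SurfaceGroup g →* SurfaceGroup g) :=
  {φ | ∃ ψ : SurfaceGroup g ≃* SurfaceGroup g, IsOrientationPreserving ψ ∧ φ = ψ.toMonoidHom}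

/-- The loops around two of the `m` branch points of a hyperelliptic curve. -/
def Arcs (m : ℕ) : Set (evenSub m) := {y | IsLoopAround 2 y}

/-- The symmetric automorphisms, as a set of homomorphisms. -/
def Symmetries (m : ℕ) : Set (evenSub m →* evenSub m) :=
  {φ | ∃ ψ : evenSub m ≃* evenSub m, IsSymmetric ψ ∧ φ = ψ.toMonoidHom}

/-- The members of all chains which are obtained from `c` by Dehn twists along members of chains. -/
def ChainCycles {G : Type} [Group G] {n : ℕ} (c : Fin n → G) : Set G := {x | IsVanishing c x}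

/-- The homomorphisms from the free group given by these chains. -/
def ChainMaps {G : Type} [Group G] {n : ℕ} (c : Fin n → G) : Set (FreeGroup (Fin n) →* G) :=
  {φ | ∃ c' : Fin n → G, Twisted c c' ∧ φ = FreeGroup.lift c'}

/-- `VanishingCycles G H V Φ`: `V` is the set of the vanishing cycles in the fundamental group `G` of a
curve and `Φ` is the set of the mapping classes (homomorphisms from `H` to `G`) of one of the following
families of curves.

* `spin`: `G = H` is the fundamental group of the closed surface of genus `g ≥ 2` with a `k`-spin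
  structure `w`, `V` consists of the non-separating simple closed curves with `w = 0`, and `Φ` is the
  mapping class group; `k` is positive, and `k` is odd or `g ≥ 5`.
* `hyperelliptic`: `G = H` is the fundamental group of the hyperelliptic curve of genus `g ≥ 2`, `V`
  consists of the loops around two branch points, and `Φ` is the group of the symmetric automorphisms.
* `chain`: `G` is a group generated by a chain `c` of `n ≥ 4` elements, `V` consists of the members of
  all chains which are obtained from `c` by Dehn twists, and `Φ` consists of the homomorphisms from the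
  free group `H` on `n` generators to `G` given by these chains. -/
inductive VanishingCycles :
    (G H : Type) → [Group G] → [Group H] → Set G → Set (H →* G) → Prop
  | spin (g k : ℕ) (w : SurfaceGroup g → ZMod k) : 2 ≤ g → 0 < k → IsSpinStructure k w →
      (5 ≤ g ∨ Odd k) → VanishingCycles _ _ (Zero w) (MappingClasses g)
  | hyperelliptic (g : ℕ) : 2 ≤ g →
      VanishingCycles _ _ (Arcs (2 * g + 2)) (Symmetries (2 * g + 2))
  | chain (n : ℕ) (G : Type) [Group G] (c : Fin n → G) : 4 ≤ n →
      Subgroup.closure (Set.range c) = ⊤ → VanishingCycles G _ (ChainCycles c) (ChainMaps c)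

/-- The fundamental group of a curve of genus `g` minus the points `x_0, ..., x_n`: the free group on
`a_i`, `b_i` (`i < g`) and `x_1, ..., x_n`. -/
abbrev Punctured (g n : ℕ) : Type := FreeGroup ((Fin g × Bool) ⊕ Fin n)

/-- The loop around the puncture `x_0`: `[a_1, b_1] ... [a_g, b_g] x_1 ... x_n x_0 = 1`. -/
def x₀ (g n : ℕ) : Punctured g n :=
  ((List.ofFn fun i : Fin g => FreeGroup.of (Sum.inl (i, false)) * FreeGroup.of (Sum.inl (i, true)) *
      (FreeGroup.of (Sum.inl (i, false)))⁻¹ * (FreeGroup.of (Sum.inl (i, true)))⁻¹).prod *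
    (List.ofFn fun j : Fin n => FreeGroup.of (Sum.inr j)).prod)⁻¹

/-- The mapping classes which fix the puncture `x_0` and permute the others (Dehn, Nielsen, Baer), as
homomorphisms: the automorphisms which preserve the conjugacy class of `x_0` and permute those of
`x_1, ..., x_n`. -/
def PuncturedClasses (g n : ℕ) : Set (Punctured g n →* Punctured g n) :=
  {φ | ∃ ψ : Punctured g n ≃* Punctured g n, IsConj (ψ (x₀ g n)) (x₀ g n) ∧
    (∀ j, ∃ j', IsConj (ψ (FreeGroup.of (Sum.inr j))) (FreeGroup.of (Sum.inr j'))) ∧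
    φ = ψ.toMonoidHom}

/-- The non-separating simple closed curves: the images of the `a_i` under the mapping classes. -/
def SimpleLoops (g n : ℕ) : Set (Punctured g n) :=
  {y | ∃ φ ∈ PuncturedClasses g n, ∃ i, y = φ (FreeGroup.of (Sum.inl (i, false)))}

/-- `Family G H V Φ`: one of the families `VanishingCycles`, or the family of all curves of genus
`g ≥ 1` with `n + 1` punctures; then `G = H` is the fundamental group, `V` consists of the
non-separating simple closed curves and `Φ` of the mapping classes which fix the puncture `x_0`. -/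
inductive Family : (G H : Type) → [Group G] → [Group H] → Set G → Set (H →* G) → Prop
  | vanishing {G H : Type} [Group G] [Group H] {V : Set G} {Φ : Set (H →* G)} :
      VanishingCycles G H V Φ → Family G H V Φ
  | punctured (g n : ℕ) : 0 < g → Family _ _ (SimpleLoops g n) (PuncturedClasses g n)

/-- All eigenvalues are roots of unity. -/
def RootsOfUnity {r : ℕ} (A : Matrix (Fin r) (Fin r) ℂ) : Prop :=
  ∀ z : ℂ, A.charpoly.IsRoot z → ∃ m : ℕ, 0 < m ∧ z ^ m = 1

section

variable {G : Type} [Group G] {r : ℕ}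

/-- On `S` the representation has only roots of unity as eigenvalues. -/
def QuasiUnipotent (ρ : G →* GL (Fin r) ℂ) (S : Set G) : Prop :=
  ∀ x ∈ S, RootsOfUnity (ρ x : Matrix (Fin r) (Fin r) ℂ)

/-- On `S` the representation takes only finitely many characteristic polynomials. -/
def FewPolynomials (ρ : G →* GL (Fin r) ℂ) (S : Set G) : Prop :=
  {P : Polynomial ℂ | ∃ x ∈ S, P = (ρ x : Matrix (Fin r) (Fin r) ℂ).charpoly}.Finite

/-- The character of the representation has finitely many pull backs under the homomorphisms in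
`Φ`. -/
def FiniteOrbit {H : Type} [Group H] (ρ : G →* GL (Fin r) ℂ) (Φ : Set (H →* G)) : Prop :=
  {χ : H → ℂ | ∃ φ ∈ Φ, χ = fun x => (ρ (φ x) : Matrix (Fin r) (Fin r) ℂ).trace}.Finite

/-- Completely reducible: every stable subspace has a stable complement. -/
def CompletelyReducible (ρ : G →* GL (Fin r) ℂ) : Prop :=
  ∀ W : Submodule ℂ (Fin r → ℂ),
    (∀ x, ∀ v ∈ W, (ρ x : Matrix (Fin r) (Fin r) ℂ).mulVec v ∈ W) →
    ∃ W' : Submodule ℂ (Fin r → ℂ),
      (∀ x, ∀ v ∈ W', (ρ x : Matrix (Fin r) (Fin r) ℂ).mulVec v ∈ W') ∧ IsCompl W W'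

end

theorem vanishing (G H : Type) [Group G] [Group H] (V : Set G) (Φ : Set (H →* G))
    (h : VanishingCycles G H V Φ) (r : ℕ) (hr : r ≤ 3) (ρ : G →* GL (Fin r) ℂ)
    (hρ : QuasiUnipotent ρ V ∨ FewPolynomials ρ V) :
    FiniteOrbit ρ Φ ∧
      (r ≤ 2 → QuasiUnipotent ρ V → CompletelyReducible ρ → Finite ρ.range) := by
  cases h with
  | spin g k w hg hk hw h5 =>
    have hcl := Pool.Agent.H2G.closure_gens (MulEquiv.refl (SurfaceGroup g))
    refine ⟨_root_.R3S.orbit_of_three (fun ρ hρ => ?_) hr ρ hρ, fun hr2 hq hc => ?_⟩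
    · refine (_root_.R3S.spin_orbit g k w hg hk hw h5 ρ ((hρ.elim
        (fun h => _root_.R3S.finite_of_qu _ hcl ρ _ h) id).subset ?_)).subset ?_
      · rintro P ⟨x, hx, hx', rfl⟩
        exact ⟨x, ⟨hx, hx'⟩, rfl⟩
      · rintro χ ⟨φ, ⟨ψ, hψ, rfl⟩, rfl⟩
        exact ⟨ψ, hψ, rfl⟩
    · obtain ⟨L, -, hv, -, h2⟩ := _root_.R3S.spins g k w hg hw (h5.imp_right Or.inl)
      exact _root_.R3S.finite_of_two hv h2 hr2 ρ hq hc
  | hyperelliptic g hg =>
    have hcl := closure_cC g (show 2 * g < 2 * g + 2 by omega)
    refine ⟨_root_.R3S.orbit_of_three (fun ρ hρ => ?_) hr ρ hρ, fun hr2 hq hc => ?_⟩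
    · refine (_root_.R3S.hyp_orbit g (by omega) ρ (hρ.elim
        (fun h => _root_.R3S.finite_of_qu _ hcl ρ _ h) id)).subset ?_
      rintro χ ⟨φ, ⟨ψ, hψ, rfl⟩, rfl⟩
      exact ⟨ψ, hψ, rfl⟩
    · obtain ⟨L, -, hv, -, h2⟩ := _root_.R3S.hyps g hg
      exact _root_.R3S.finite_of_two hv h2 hr2 ρ hq hc
  | chain n _ c hn hc =>
    obtain ⟨L, hL, hv, h⟩ := _root_.R3S.chains n hn
    refine ⟨_root_.R3S.orbit_of_three (fun ρ hρ => ?_) hr ρ hρ, fun hr2 hq hcr => ?_⟩
    · have hfin : {P : Polynomial ℂ | ∃ x ∈ {x | IsVanishing c x},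
          P = (ρ x : Matrix (Fin 3) (Fin 3) ℂ).charpoly}.Finite :=
        hρ.elim (fun h => _root_.R3S.finite_of_qu _ hc ρ _ h) id
      have h3 := (h (FreeGroup (Fin n)) FreeGroup.of (FreeGroup.closure_range_of _)).1.1 _ hfin
      refine h3.subset ?_
      rintro χ ⟨φ, ⟨c', hc', rfl⟩, rfl⟩
      refine ⟨ρ.comp (FreeGroup.lift c'), ?_, rfl⟩
      rintro x ⟨u, hu, rfl⟩
      have h7 : FreeGroup.lift FreeGroup.of u = u := by
        rw [FreeGroup.lift_of_eq_id]
        rfl
      rw [h7]
      obtain ⟨c'', hc'', i, hi⟩ := _root_.R3S.vanishing_lift c' (hv u hu)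
      exact ⟨FreeGroup.lift c' u, ⟨c'', _root_.R3S.Twisted_trans hc' hc'', i, hi⟩, rfl⟩
    · refine _root_.R3S.finite_of_two ?_ (h G c hc).2 hr2 ρ hq hcr
      rintro x ⟨u, hu, rfl⟩
      exact _root_.R3S.vanishing_lift c (hv u hu)

theorem x₀_eq (g n : ℕ) : x₀ g n = Pool.Agent.LGP.x0 g n := by
  unfold x₀ Pool.Agent.LGP.x0 Helper12.Sc.comm Pool.Agent.LGP.stdL Pool.Agent.LGP.stdM
  rw [List.map_ofFn]
  rfl

theorem mc_iff {g n : ℕ} (φ : Punctured g n →* Punctured g n) :
    φ ∈ PuncturedClasses g n ↔ ∃ ψ ∈ Pool.Agent.LGP.MC g n, φ = ψ.toMonoidHom := by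
  unfold PuncturedClasses
  rw [x₀_eq]
  constructor
  · rintro ⟨ψ, h1, h2, h3⟩
    exact ⟨ψ, ⟨h1, h2⟩, h3⟩
  · rintro ⟨ψ, ⟨h1, h2⟩, h3⟩
    exact ⟨ψ, h1, h2, h3⟩

theorem ns_iff {g n : ℕ} (y : Punctured g n) : y ∈ SimpleLoops g n ↔ Pool.Agent.LGP.NS y := by
  constructor
  · rintro ⟨φ, hφ, i, rfl⟩
    obtain ⟨ψ, hψ, rfl⟩ := (mc_iff φ).1 hφ
    exact ⟨ψ, hψ, i, rfl⟩
  · rintro ⟨ψ, hψ, i, rfl⟩
    exact ⟨ψ.toMonoidHom, (mc_iff _).2 ⟨ψ, hψ, rfl⟩, i, rfl⟩

theorem punctured (g n : ℕ) (hg : 0 < g) (r : ℕ) (hr : r ≤ 3)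
    (ρ : Punctured g n →* GL (Fin r) ℂ)
    (hρ : QuasiUnipotent ρ (SimpleLoops g n) ∨ FewPolynomials ρ (SimpleLoops g n)) :
    FiniteOrbit ρ (PuncturedClasses g n) := by
  let e := Fintype.equivFin ((Fin g × Bool) ⊕ Fin n)
  have hcl : Subgroup.closure (Set.range fun i => (FreeGroup.of (e.symm i) : Punctured g n)) = ⊤ := by
    rw [show (fun i => (FreeGroup.of (e.symm i) : Punctured g n)) = FreeGroup.of ∘ e.symm from rfl,
      e.symm.surjective.range_comp]
    exact FreeGroup.closure_range_of _
  refine _root_.R3S.orbit_of_three (fun ρ hρ => ?_) hr ρ hρ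
  refine (Pool.Agent.RTP.all_Orb g n hg ρ ((hρ.elim
    (fun h => _root_.R3S.finite_of_qu _ hcl ρ _ h) id).subset ?_)).subset ?_
  · rintro P ⟨y, hy, rfl⟩
    exact ⟨y, (ns_iff y).2 hy, rfl⟩
  · rintro χ ⟨φ, hφ, rfl⟩
    obtain ⟨ψ, hψ, rfl⟩ := (mc_iff φ).1 hφ
    exact ⟨ψ, hψ, rfl⟩

/-- Let `ρ` be a representation of rank at most three of `G`, and suppose that on the vanishing cycles
(for punctured curves: on the non-separating simple closed curves) it has only roots of unity as
eigenvalues, or only finitely many characteristic polynomials. Then the character of `ρ` has finitely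
many pull backs under the mapping classes. If moreover the family is one of `VanishingCycles`, the
rank is at most two, all eigenvalues on the vanishing cycles are roots of unity and `ρ` is completely
reducible, then the image of `ρ` is finite. -/
theorem result (G H : Type) [Group G] [Group H] (V : Set G) (Φ : Set (H →* G))
    (h : Family G H V Φ) (r : ℕ) (hr : r ≤ 3) (ρ : G →* GL (Fin r) ℂ)
    (hρ : QuasiUnipotent ρ V ∨ FewPolynomials ρ V) :
    FiniteOrbit ρ Φ ∧ (VanishingCycles G H V Φ → r ≤ 2 → QuasiUnipotent ρ V →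
      CompletelyReducible ρ → Finite ρ.range) := by
  refine ⟨?_, fun h' => (vanishing G H V Φ h' r hr ρ hρ).2⟩
  cases h with
  | vanishing h => exact (vanishing G H V Φ h r hr ρ hρ).1
  | punctured g n hg => exact punctured g n hg r hr ρ hρ

end Pool.Agent.Results.MP_0707f5_ag.VanishingChains
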